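import Pool.Agent.H30.GMC.StT

set_option autoImplicit false

open AlgebraicGeometry CategoryTheory FCB MvPolynomial

namespace GMC

namespace SUBA

theorem jac1 : JacobsonSpace (PS 1) := by
  have : JacobsonSpace (Spec (.of ℂ)) := inferInstance
  exact LocallyOfFiniteType.jacobsonSpace (PSstr 1)

theorem isClosed_mem {n : ℕ} (A : MvPolynomial (Fin (n + 1)) ℂ) :
    IsClosed {z : PS n | A ∈ PI z} := by
  have h : {z : PS n | A ∈ PI z}ᶜ = ((Proj.basicOpen (grd n) A : (Proj (grd n)).Opens) :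
      Set (Proj (grd n))) := by
    ext z
    exact (Proj.mem_basicOpen (grd n) A z).symm
  rw [← isOpen_compl_iff, h]
  exact (Proj.basicOpen (grd n) A).isOpen

theorem vec2 (v : Fin 2 → ℂ) : v = ![v 0, v 1] := by
  ext i
  fin_cases i <;> rfl

theorem bf_hom {n e : ℕ} (c : Fin (n + 1) × Fin (e + 1) → ℂ) (i : Fin (n + 1)) :
    (bf c i).IsHomogeneous e := by
  unfold bf
  refine MvPolynomial.IsHomogeneous.sum _ _ _ fun j _ => ?_
  have h := ((isHomogeneous_C (Fin 2) (c (i, j))).mul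
    ((isHomogeneous_X ℂ (0 : Fin 2)).pow (j : ℕ))).mul
    ((isHomogeneous_X ℂ (1 : Fin 2)).pow (e - j))
  have hj : (j : ℕ) ≤ e := Nat.lt_succ_iff.1 j.2
  have he : 0 + 1 * (j : ℕ) + 1 * (e - j) = e := by omega
  rwa [he] at h

theorem sub_hom {n e d : ℕ} (c : Fin (n + 1) × Fin (e + 1) → ℂ)
    (A : MvPolynomial (Fin (n + 1)) ℂ) (hA : A ∈ grd n d) :
    aeval (bf c) A ∈ grd 1 (e * d) :=
  MvPolynomial.IsHomogeneous.aeval hA (bf c) (bf_hom c)

theorem eval_sub {n e : ℕ} (c : Fin (n + 1) × Fin (e + 1) → ℂ)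
    (A : MvPolynomial (Fin (n + 1)) ℂ) (s t : ℂ) :
    eval ![s, t] (aeval (bf c) A) = eval (ev c s t) A := by
  have h : (eval ![s, t]).comp (aeval (bf c) : MvPolynomial (Fin (n + 1)) ℂ →ₐ[ℂ]
      MvPolynomial (Fin 2) ℂ).toRingHom = eval (ev c s t) := by
    refine MvPolynomial.ringHom_ext ?_ ?_
    · intro r
      simp
    · intro i
      simp [bf, ev]
  exact RingHom.congr_fun h A

theorem closed_pt (h2 : S_IPT) {n e : ℕ} (c : Fin (n + 1) × Fin (e + 1) → ℂ)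
    (g : PS 1 ⟶ PS n) (hg : IsGiven g c) (x : PS 1) (hx : IsClosed ({x} : Set (PS 1)))
    (d : ℕ) (A : MvPolynomial (Fin (n + 1)) ℂ) (hA : A ∈ grd n d) :
    A ∈ PI (g x) ↔ aeval (bf c) A ∈ PI x := by
  obtain ⟨v, hv⟩ := (h2 1).2.2.1 x hx
  rw [vec2 v] at hv
  have h3 := hg _ _ x hv
  rw [h3 d A hA, hv (e * d) _ (sub_hom c A hA), eval_sub]

end SUBA

open SUBA in
theorem suba_thm (_h1 : S_PSB) (h2 : S_IPT) (_h3 : S_JACO) : S_SUBA := by
  intro n e c g _ hg x d A hA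
  have := jac1
  have hc1 : IsClosed {y : PS 1 | A ∈ PI (g y)} :=
    (isClosed_mem A).preimage g.continuous
  have hc2 : IsClosed {y : PS 1 | aeval (bf c) A ∈ PI y} := isClosed_mem _
  have h4 : {y : PS 1 | A ∈ PI (g y)} ∩ closedPoints (PS 1) =
      {y : PS 1 | aeval (bf c) A ∈ PI y} ∩ closedPoints (PS 1) := by
    ext y
    constructor
    · rintro ⟨hy, hy'⟩
      exact ⟨(closed_pt h2 c g hg y hy' d A hA).1 hy, hy'⟩
    · rintro ⟨hy, hy'⟩
      exact ⟨(closed_pt h2 c g hg y hy' d A hA).2 hy, hy'⟩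
  have h5 : {y : PS 1 | A ∈ PI (g y)} = {y : PS 1 | aeval (bf c) A ∈ PI y} := by
    rw [← closure_inter_closedPoints hc1, h4, closure_inter_closedPoints hc2]
  exact Set.ext_iff.1 h5 x

end GMC
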