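import Pool.Agent.H87.GMC.SUBA

set_option autoImplicit false

open AlgebraicGeometry CategoryTheory FCB MvPolynomial

namespace GMC

namespace SUBB

open SUBA

/-- a nonempty open set contains a closed point -/
theorem closed_of_open {U : Set (PS 1)} (hU : IsOpen U) (hne : U.Nonempty) :
    ∃ x ∈ U, IsClosed ({x} : Set (PS 1)) := by
  have := jac1
  obtain ⟨x, hx, hx'⟩ := nonempty_inter_closedPoints hne hU.isLocallyClosed
  exact ⟨x, hx, hx'⟩

theorem isOpen_nmem {n : ℕ} (A : MvPolynomial (Fin (n + 1)) ℂ) :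
    IsOpen {z : PS n | A ∉ PI z} := (isClosed_mem A).isOpen_compl

theorem regAt_gen (f : (PS 1).functionField) : RegAt (genericPoint (PS 1)) f := by
  refine ⟨f, ?_⟩
  change ((PS 1).presheaf.stalkSpecializes _).hom f = f
  rw [TopCat.Presheaf.stalkSpecializes_refl]
  rfl

/-- `f - z` is a nonunit at `y` if the numerator vanishes -/
theorem nonunit (h4 : S_RATB) (h5 : S_RLOC) {n : ℕ} (g : PS 1 ⟶ PS n)
    (hg : g ≫ PSstr n = PSstr 1) (y : PS 1) (A B : MvPolynomial (Fin (n + 1)) ℂ)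
    (f : (PS 1).functionField) (hf : IsRatio g A B f) (z : ℂ) (hB : B ∉ PI (g y))
    (hA : A - C z * B ∈ PI (g y)) :
    RegAt y (f - ffHom (PSstr 1) z) ∧ ¬ UnitAt y (f - ffHom (PSstr 1) z) := by
  have h1 := (h4 (PS 1) n g).2.2 (PSstr 1) hg (-z)
  have h2 := ((h4 (PS 1) n g).1 A B (C (-z)) 1 f _ hf h1).2
  rw [mul_one, mul_one, map_neg C, map_neg (ffHom (PSstr 1)), neg_mul, ← sub_eq_add_neg,
    ← sub_eq_add_neg] at h2
  obtain ⟨h3, h3'⟩ := h5 (PS 1) n g y _ _ _ h2 hB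
  exact ⟨h3, fun h => (h3'.1 h) hA⟩

end SUBB

open SUBA SUBB in
theorem subb_thm (_h1 : S_PSB) (h2 : S_IPT) (h3 : S_RATA) (h4 : S_RATB) (h5 : S_RLOC)
    (h6 : S_RGEN) (h7 : S_SUBA) : S_SUBB := by
  intro n e c g hg hgc A B f hf
  obtain ⟨d, hA, hB, hn, -⟩ := id hf
  have hB' : aeval (bf c) B ∉ PI (genericPoint (PS 1)) := fun h =>
    hn ((h7 n e c g hg hgc _ d B hB).2 h)
  obtain ⟨f', hf'⟩ := (h3 (PS 1) 1 (𝟙 (PS 1))).1 (e * d) (aeval (bf c) A) (aeval (bf c) B)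
    (sub_hom c A hA) (sub_hom c B hB) hB'
  have h61 : ∃ (d : ℕ) (A B : MvPolynomial (Fin (1 + 1)) ℂ), A ∈ grd 1 d ∧ B ∈ grd 1 d ∧
      B ∉ PI (genericPoint (PS 1)) ∧ IsRatio (𝟙 (PS 1)) A B f :=
    h6 P1 (genericPoint (PS 1)) f (regAt_gen f)
  obtain ⟨d1, A1, B1, hA1, hB1, hB1n', hf1'⟩ := h61
  suffices h : f' = f by rwa [← h]
  rw [(h3 (PS 1) 1 (𝟙 (PS 1))).2.1 _ _ _ _ _ _ hf' hf1']
  by_contra hF
  have hF' : aeval (bf c) A * B1 - A1 * aeval (bf c) B ∉ PI (genericPoint (PS 1)) := hF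
  obtain ⟨y, ⟨⟨hy1, hy2⟩, hy3⟩, hy⟩ := closed_of_open
    (((isOpen_nmem (aeval (bf c) A * B1 - A1 * aeval (bf c) B)).inter
      (isOpen_nmem B1)).inter (isOpen_nmem (aeval (bf c) B)))
    ⟨genericPoint (PS 1), ⟨hF', hB1n'⟩, hB'⟩
  obtain ⟨v, hv⟩ := (h2 1).2.2.1 y hy
  have hA' := sub_hom c A hA
  have hB'' := sub_hom c B hB
  have e1 : eval v B1 ≠ 0 := fun h => hy2 ((hv d1 B1 hB1).2 h)
  have e2 : eval v (aeval (bf c) B) ≠ 0 := fun h => hy3 ((hv (e * d) _ hB'').2 h)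
  have e3 : eval v (aeval (bf c) A) * eval v B1 - eval v A1 * eval v (aeval (bf c) B) ≠ 0 := by
    intro h
    refine hy1 ((hv (e * d + d1) _ ?_).2 (by rw [map_sub, map_mul, map_mul]; exact h))
    have h13 : (A1 * aeval (bf c) B).IsHomogeneous (d1 + e * d) := hA1.mul hB''
    have h14 : d1 + e * d = e * d + d1 := Nat.add_comm _ _
    rw [h14] at h13
    exact MvPolynomial.IsHomogeneous.sub (hA'.mul hB1) h13
  set z := eval v A1 / eval v B1 with hz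
  set w := eval v (aeval (bf c) A) / eval v (aeval (bf c) B) with hw
  have hzw : z ≠ w := by
    intro h
    rw [hz, hw, div_eq_div_iff e1 e2] at h
    exact e3 (by rw [h]; ring)
  have hgB : B ∉ PI (g y) := fun h => hy3 ((h7 n e c g hg hgc y d B hB).1 h)
  have hgA : A - C w * B ∈ PI (g y) := by
    refine (h7 n e c g hg hgc y d _ ?_).2 ?_
    · refine Submodule.sub_mem _ hA ?_
      rw [← smul_eq_C_mul]
      exact Submodule.smul_mem _ _ hB
    · have h8 : aeval (bf c) (A - C w * B) = aeval (bf c) A - C w * aeval (bf c) B := by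
        rw [map_sub, map_mul, aeval_C]
        rfl
      rw [h8]
      refine (hv (e * d) _ ?_).2 ?_
      · refine Submodule.sub_mem _ hA' ?_
        rw [← smul_eq_C_mul]
        exact Submodule.smul_mem _ _ hB''
      · rw [map_sub, map_mul, eval_C, hw, div_mul_cancel₀ _ e2, sub_self]
  have h1A : A1 - C z * B1 ∈ PI ((𝟙 (PS 1) : PS 1 ⟶ PS 1) y) := by
    refine (hv d1 _ ?_).2 ?_
    · refine Submodule.sub_mem _ hA1 ?_
      rw [← smul_eq_C_mul]
      exact Submodule.smul_mem _ _ hB1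
    · rw [map_sub, map_mul, eval_C, hz, div_mul_cancel₀ _ e1, sub_self]
  obtain ⟨⟨s1, hs1⟩, hu1⟩ := nonunit h4 h5 g hg y A B f hf w hgB hgA
  obtain ⟨⟨s2, hs2⟩, hu2⟩ := nonunit h4 h5 (𝟙 (PS 1)) (Category.id_comp _) y A1 B1 f
    hf1' z hy2 h1A
  have hn1 : ¬ IsUnit s1 := fun h => hu1 ⟨s1, h, hs1⟩
  have hn2 : ¬ IsUnit s2 := fun h => hu2 ⟨s2, h, hs2⟩
  have h9 := (h4 (PS 1) 1 (𝟙 (PS 1))).2.2 (PSstr 1) (Category.id_comp _) (z - w)
  have h10 : (1 : MvPolynomial (Fin 2) ℂ) ∉ PI ((𝟙 (PS 1) : PS 1 ⟶ PS 1) y) := by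
    intro h
    have h' := (hv 0 1 (isHomogeneous_one _ _)).1 h
    rw [map_one] at h'
    exact one_ne_zero h'
  have h11 : (C (z - w) : MvPolynomial (Fin 2) ℂ) ∉ PI ((𝟙 (PS 1) : PS 1 ⟶ PS 1) y) := by
    intro h
    have h' := (hv 0 _ (isHomogeneous_C _ _)).1 h
    rw [eval_C] at h'
    exact sub_ne_zero.2 hzw h'
  obtain ⟨s, hs, hs'⟩ := (h5 (PS 1) 1 (𝟙 (PS 1)) y _ _ _ h9 h10).2.2 h11
  have h12 : s = s1 - s2 := by
    apply IsFractionRing.injective ((PS 1).presheaf.stalk y) (PS 1).functionField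
    rw [hs', map_sub (ffHom (PSstr 1)), map_sub (algebraMap _ _), hs1, hs2]
    ring
  rw [h12] at hs
  exact (IsLocalRing.nonunits_add (a := s1) (b := -s2) hn1 (by
    rw [mem_nonunits_iff, IsUnit.neg_iff]
    exact hn2)) (by rwa [← sub_eq_add_neg])

end GMC
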